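import Pool.Agent.Seg82.B22
import Pool.Agent.Seg82.B13

/-! Families of segments with small pairwise crossing and pairwise disjoint subfamilies. -/

namespace Pool.Agent.Results.MP_9f8fce_co.UpperExponent

open Pool.Agent.Seg82

lemma good_big : Good (22 ^ 12 * 13 ^ 5) (3 ^ 12 * 4 ^ 5) (3 ^ 12 * 4 ^ 5) :=
  ((good22.pow 12).mul (good13.pow 5)).mono le_rfl (by norm_num)

lemma num_bound : (3 ^ 12 * 4 ^ 5) ^ 1000 ≤ (22 ^ 12 * 13 ^ 5) ^ 403 := by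
  decide +kernel

theorem result : ∃ C : ℝ, ∀ m : ℕ, 1 ≤ m → ∃ S : Finset (Set (ℝ × ℝ)), S.card = m ∧
    (∀ s ∈ S, ∃ a b : ℝ × ℝ, a ≠ b ∧ s = openSegment ℝ a b) ∧
    ∀ T ⊆ S, ((T : Set (Set (ℝ × ℝ))).Pairwise (fun s t => (s ∩ t).Nonempty) ∨
      (T : Set (Set (ℝ × ℝ))).Pairwise Disjoint) → (T.card : ℝ) ≤ C * (m : ℝ) ^ (0.403 : ℝ) := by
  refine ⟨((3 ^ 12 * 4 ^ 5 : ℕ) : ℝ), fun m hm => ?_⟩
  have hc : ((3 ^ 12 * 4 ^ 5 : ℕ) : ℝ) ≤ ((22 ^ 12 * 13 ^ 5 : ℕ) : ℝ) ^ (0.403 : ℝ) := by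
    have h1 : ((3 ^ 12 * 4 ^ 5 : ℕ) : ℝ) ^ (1000 : ℕ) ≤
        ((22 ^ 12 * 13 ^ 5 : ℕ) : ℝ) ^ (403 : ℕ) := by
      exact_mod_cast num_bound
    have h2 : (((22 ^ 12 * 13 ^ 5 : ℕ) : ℝ) ^ (0.403 : ℝ)) ^ (1000 : ℕ) =
        ((22 ^ 12 * 13 ^ 5 : ℕ) : ℝ) ^ (403 : ℕ) := by
      rw [← Real.rpow_natCast, ← Real.rpow_mul (by positivity), ← Real.rpow_natCast]
      norm_num
    rw [← h2] at h1
    exact le_of_pow_le_pow_left₀ (by norm_num) (by positivity) h1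
  exact family_le good_big (by norm_num) (by norm_num) (0.403 : ℝ) (by norm_num) hc hm

end Pool.Agent.Results.MP_9f8fce_co.UpperExponent
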